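import Pool.Agent.H13.EC.Defs

/-!
# EC, module ORD: the ordinary case
-/

namespace Pool.Agent.H12.EC.ORD

open Pool.Agent.H13.EC

universe u

/-- the pairs -/
abbrev Pr (n : ℕ) : Type := {p : Fin n × Fin n // p.1 < p.2}

theorem sum_pairs {F : Type u} [Field F] (n : ℕ) (f : Fin n → Fin n → F) :
    ∑ q : Pr n, f q.1.1 q.1.2 = ∑ i, ∑ j ∈ Finset.Ioi i, f i j := by
  classical
  rw [← Finset.sum_subtype (s := Finset.univ.filter fun p : Fin n × Fin n => p.1 < p.2)
    (f := fun p => f p.1 p.2) (fun p => by simp)]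
  rw [Finset.sum_filter, Fintype.sum_prod_type]
  refine Finset.sum_congr rfl fun i _ => ?_
  rw [← Finset.sum_filter, Finset.filter_lt_eq_Ioi]

/-- generic solvability -/
theorem generic (h1 : T_GEN.{u}) (h2 : T_SURJ.{u}) (F V : Type u) [Field F] [CharP F 2]
    [Infinite F] [AddCommGroup V] [Finite V] (ψ : F →+ V) (A : F) (n : ℕ) :
    ∃ m : Fin n → F, Function.Injective m ∧ ∀ c : Pr n → F, ∃ x, ∀ q : Pr n,
      ψ ((A + 1 / (m q.1.1 - m q.1.2)) * x) = ψ (c q) := by
  classical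
  obtain ⟨S, hS, hx⟩ := h2 F V (Pr n) ψ
  let ex : (Pr n → F) → Fin n → Fin n → F := fun a i j => if h : i < j then a ⟨(i, j), h⟩ else 0
  have hex : ∀ (a : Pr n → F) (q : Pr n), ex a q.1.1 q.1.2 = a q := fun a q => dif_pos q.2
  obtain ⟨m, hm, hm2⟩ := h1 F n A (S.image ex) (by
    intro b hb
    obtain ⟨a, ha, rfl⟩ := Finset.mem_image.1 hb
    obtain ⟨q, hq⟩ := Function.ne_iff.1 (hS a ha)
    exact ⟨q.1.1, q.1.2, q.2, by rw [hex]; exact hq⟩)
  refine ⟨m, hm, hx _ ?_⟩
  intro a ha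
  have h3 := hm2 (ex a) (Finset.mem_image_of_mem _ ha)
  rw [← sum_pairs n fun i j => ex a i j * (A + 1 / (m i - m j))] at h3
  have h4 : ∑ q : Pr n, a q * (A + 1 / (m q.1.1 - m q.1.2)) =
      ∑ q : Pr n, ex a q.1.1 q.1.2 * (A + 1 / (m q.1.1 - m q.1.2)) :=
    Finset.sum_congr rfl fun q _ => by rw [hex]
  rw [h4]
  exact h3

/-- large elements of a coset of a subgroup of finite index -/
theorem large {F : Type u} [Field F] {Γ₀ : Type u} [LinearOrderedCommGroupWithZero Γ₀]
    (v : Valuation F Γ₀) (hv : ∀ b : F, ∃ x, v b < v x) {W : Type u} [AddCommGroup W] [Finite W]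
    (θ : F →+ W) (x0 b : F) : ∃ x, θ x = θ x0 ∧ v b < v x := by
  classical
  by_contra hcon
  push Not at hcon
  have hr : ∀ y : W, ∃ r : F, (∃ f, θ f = y) → θ r = y := by
    intro y
    by_cases h : ∃ f, θ f = y
    · obtain ⟨f, hf⟩ := h
      exact ⟨f, fun _ => hf⟩
    · exact ⟨0, fun h' => absurd h' h⟩
  choose r hr using hr
  have := Fintype.ofFinite W
  obtain ⟨c, -, hc⟩ := Finset.exists_max_image (insert b (insert x0 (Finset.univ.image r)))
    (fun x => v x) (Finset.insert_nonempty _ _)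
  have hcb : v b ≤ v c := hc b (Finset.mem_insert_self _ _)
  have hcx : v x0 ≤ v c := hc x0 (Finset.mem_insert_of_mem (Finset.mem_insert_self _ _))
  have hcr : ∀ y, v (r y) ≤ v c := fun y => hc _ (Finset.mem_insert_of_mem
    (Finset.mem_insert_of_mem (Finset.mem_image_of_mem _ (Finset.mem_univ y))))
  obtain ⟨f, hf⟩ := hv c
  have h1 : θ (r (θ f)) = θ f := hr _ ⟨f, rfl⟩
  have h2 : θ (x0 + (f - r (θ f))) = θ x0 := by
    rw [map_add, map_sub, h1, sub_self, add_zero]
  have h3 := hcon _ h2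
  have h4 : f = x0 + (f - r (θ f)) - x0 + r (θ f) := by ring
  have h5 : v f ≤ v c := by
    rw [h4]
    refine (v.map_add _ _).trans (max_le ?_ (hcr _))
    exact (v.map_sub _ _).trans (max_le (h3.trans hcb) hcx)
  exact absurd hf (not_lt.2 h5)

theorem add_self_zero {F : Type u} [Field F] [CharP F 2] (x : F) : x + x = 0 :=
  CharTwo.add_self_eq_zero x

/-- the identity for a pair -/
theorem pair {F V : Type u} [Field F] [CharP F 2] [AddCommGroup V] (ψ : F →+ V)
    (A C D g x : F) (hψ : ∀ x, ψ (x ^ 2) = ψ x) (hA : A ≠ 0) (m m' : F) (hm : m ≠ m')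
    (hx : x + A * m ^ 2 ≠ 0) (hx' : x + A * m' ^ 2 ≠ 0)
    (h1 : ψ ((A + 1 / (m - m')) * x) = ψ (g + (A + 1 / (m - m')) * (A * m ^ 2)))
    (h2 : ψ (C / (x + A * m ^ 2) + D / (x + A * m ^ 2) ^ 2) =
      ψ (C / (x + A * m' ^ 2) + D / (x + A * m' ^ 2) ^ 2)) :
    ψ (A * ((x + A * m ^ 2) * (x + A * m' ^ 2) / (A * m ^ 2 + A * m' ^ 2)) +
      C / ((x + A * m ^ 2) * (x + A * m' ^ 2) / (A * m ^ 2 + A * m' ^ 2)) +
      D / ((x + A * m ^ 2) * (x + A * m' ^ 2) / (A * m ^ 2 + A * m' ^ 2)) ^ 2) = ψ g := by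
  have h20 : (2 : F) = 0 := CharTwo.two_eq_zero
  have hs : m - m' ≠ 0 := sub_ne_zero.2 hm
  have hlam : A * m ^ 2 + A * m' ^ 2 = A * (m - m') ^ 2 := by
    linear_combination (A * m * m') * h20
  have hlam0 : A * m ^ 2 + A * m' ^ 2 ≠ 0 := by
    rw [hlam]
    exact mul_ne_zero hA (pow_ne_zero 2 hs)
  have hVV : ∀ u : F, ψ u + ψ u = 0 := by
    intro u
    rw [← map_add, add_self_zero, map_zero]
  set y := x + A * m ^ 2 with hy
  set y' := x + A * m' ^ 2 with hy'
  have hyy : y' = y + A * (m - m') ^ 2 := by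
    rw [hy, hy']
    linear_combination (A * m * m' - A * m ^ 2) * h20
  have e1 : A * (y * y' / (A * m ^ 2 + A * m' ^ 2)) = (y / (m - m')) ^ 2 + A * y := by
    rw [hlam, hyy]
    field_simp
  have e2 : C / (y * y' / (A * m ^ 2 + A * m' ^ 2)) = C / y + C / y' := by
    have : C / (y * y' / (A * m ^ 2 + A * m' ^ 2)) = C * (A * m ^ 2 + A * m' ^ 2) / (y * y') := by
      field_simp
    rw [this, hlam, div_add_div _ _ hx hx']
    congr 1
    rw [hyy]
    linear_combination (- C * y) * h20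
  have e3 : D / (y * y' / (A * m ^ 2 + A * m' ^ 2)) ^ 2 = D / y ^ 2 + D / y' ^ 2 := by
    have : D / (y * y' / (A * m ^ 2 + A * m' ^ 2)) ^ 2 =
        D * (A * m ^ 2 + A * m' ^ 2) ^ 2 / (y ^ 2 * y' ^ 2) := by
      field_simp
    rw [this, hlam, div_add_div _ _ (pow_ne_zero 2 hx) (pow_ne_zero 2 hx')]
    congr 1
    rw [hyy]
    linear_combination (- D * y ^ 2 - D * y * A * (m - m') ^ 2) * h20
  have e4 : A * (y * y' / (A * m ^ 2 + A * m' ^ 2)) + C / (y * y' / (A * m ^ 2 + A * m' ^ 2)) +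
      D / (y * y' / (A * m ^ 2 + A * m' ^ 2)) ^ 2 =
      (y / (m - m')) ^ 2 + A * y + (C / y + D / y ^ 2) + (C / y' + D / y' ^ 2) := by
    rw [e1, e2, e3]
    ring
  rw [e4, map_add, ← h2, map_add, add_assoc, hVV, add_zero, map_add, hψ, ← map_add]
  have e5 : y / (m - m') + A * y = (A + 1 / (m - m')) * x + (A + 1 / (m - m')) * (A * m ^ 2) := by
    rw [hy]
    field_simp
    ring
  rw [e5, map_add, h1, map_add, add_assoc, hVV, add_zero]

theorem ord (h1 : T_GEN.{u}) (h2 : T_SURJ.{u}) : T_ORD.{u} := by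
  classical
  intro F V _ _ _ _ ψ Γ₀ _ v A C D B g hψ hv hA
  have hinf : Infinite F := by
    by_contra hF
    rw [not_infinite_iff_finite] at hF
    obtain ⟨x, hx⟩ := Finite.exists_max fun x : F => v x
    obtain ⟨y, hy⟩ := hv x
    exact absurd hy (not_lt.2 (hx y))
  have hfV := Fintype.ofFinite V
  obtain ⟨m, hm, hsol⟩ := generic h1 h2 F V ψ A (Fintype.card V + 1)
  obtain ⟨x0, hx0⟩ := hsol fun q => g + (A + 1 / (m q.1.1 - m q.1.2)) * (A * m q.1.1 ^ 2)
  let θ : F →+ (Pr (Fintype.card V + 1) → V) :=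
    { toFun := fun x q => ψ ((A + 1 / (m q.1.1 - m q.1.2)) * x)
      map_zero' := by
        funext q
        rw [mul_zero, map_zero]
        rfl
      map_add' := by
        intro x y
        funext q
        rw [mul_add, map_add]
        rfl }
  have hθ : ∀ x q, θ x q = ψ ((A + 1 / (m q.1.1 - m q.1.2)) * x) := fun _ _ => rfl
  let p : Fin (Fintype.card V + 1) → F := fun i => A * m i ^ 2
  obtain ⟨b, -, hb⟩ := Finset.exists_max_image (insert B (Finset.univ.image p ∪
    Finset.univ.image fun q : Fin (Fintype.card V + 1) × Fin (Fintype.card V + 1) =>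
      p q.1 + p q.2)) (fun x => v x) (Finset.insert_nonempty _ _)
  have hbB : v B ≤ v b := hb B (Finset.mem_insert_self _ _)
  have hbp : ∀ i, v (p i) ≤ v b := fun i => hb _ (Finset.mem_insert_of_mem
    (Finset.mem_union_left _ (Finset.mem_image_of_mem _ (Finset.mem_univ i))))
  have hbpp : ∀ i j, v (p i + p j) ≤ v b := fun i j => hb _ (Finset.mem_insert_of_mem
    (Finset.mem_union_right _ (Finset.mem_image.2 ⟨(i, j), Finset.mem_univ _, rfl⟩)))
  obtain ⟨x, hx1, hx2⟩ := large v hv θ x0 b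
  have hvx : ∀ i, v (x + p i) = v x := fun i =>
    v.map_add_eq_of_lt_left ((hbp i).trans_lt hx2)
  have hne : ∀ i, x + p i ≠ 0 := by
    intro i h
    have h3 := hvx i
    rw [h, map_zero] at h3
    rw [← h3] at hx2
    exact not_lt_zero hx2
  obtain ⟨i, j, hij, hφ⟩ := Fintype.exists_ne_map_eq_of_card_lt
    (fun i : Fin (Fintype.card V + 1) => ψ (C / (x + p i) + D / (x + p i) ^ 2))
    (by rw [Fintype.card_fin]; exact Nat.lt_succ_self _)
  have key : ∀ i j : Fin (Fintype.card V + 1), i < j →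
      ψ (C / (x + p i) + D / (x + p i) ^ 2) = ψ (C / (x + p j) + D / (x + p j) ^ 2) →
      ∃ z : F, v B < v z ∧ ψ (A * z + C / z + D / z ^ 2) = ψ g := by
    intro i j hij hφ
    have hmij : m i ≠ m j := fun h => hij.ne (hm h)
    have h3 : ψ ((A + 1 / (m i - m j)) * x) = ψ (g + (A + 1 / (m i - m j)) * (A * m i ^ 2)) := by
      have h4 := congrFun hx1 ⟨(i, j), hij⟩
      rw [hθ, hθ] at h4
      exact h4.trans (hx0 ⟨(i, j), hij⟩)
    refine ⟨(x + p i) * (x + p j) / (p i + p j), ?_, ?_⟩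
    · have hlam0 : p i + p j ≠ 0 := by
        have h20 : (2 : F) = 0 := CharTwo.two_eq_zero
        have hlam : p i + p j = A * (m i - m j) ^ 2 := by
          change A * m i ^ 2 + A * m j ^ 2 = _
          linear_combination (A * m i * m j) * h20
        rw [hlam]
        exact mul_ne_zero hA (pow_ne_zero 2 (sub_ne_zero.2 hmij))
      have hvl : v (p i + p j) < v (x + p j) := by
        rw [hvx]
        exact (hbpp i j).trans_lt hx2
      have hvl0 : 0 < v (p i + p j) := by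
        rw [zero_lt_iff]
        exact (v.ne_zero_iff).2 hlam0
      rw [map_div₀, map_mul, hvx i, lt_div_iff₀ hvl0]
      have hB : v B < v x := hbB.trans_lt hx2
      calc v B * v (p i + p j) ≤ v B * v (x + p j) := by
            exact mul_le_mul_right hvl.le _
        _ < v x * v (x + p j) := by
            apply mul_lt_mul_of_pos_right hB
            exact lt_of_le_of_lt zero_le hvl
    · exact pair ψ A C D g x hψ hA (m i) (m j) hmij (hne i) (hne j) h3 hφ
  rcases lt_or_gt_of_ne hij with h | h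
  · exact key i j h hφ
  · exact key j i h hφ.symm

end Pool.Agent.H12.EC.ORD
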