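import Pool.Agent.H13.EC.Defs

/-!
# EC, module QM: values of quadratic maps on subgroups of finite index
-/

namespace Pool.Agent.H12.EC.QM

open Pool.Agent.H13.EC

universe u

theorem qm : T_QM.{u} := by
  intro G V _ _ _ Q β hG hV hQ hχ
  have h0 : Q 0 = 0 := by
    have h := hQ 0 0
    rw [add_zero, map_zero, add_zero] at h
    have h2 : Q 0 + 0 = Q 0 + Q 0 := by rw [add_zero]; exact h
    exact (add_left_cancel h2).symm
  let S : AddSubgroup V :=
    { carrier := {c | ∀ H : AddSubgroup G, H.FiniteIndex → ∃ x ∈ H, Q x = c}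
      zero_mem' := fun H _ => ⟨0, H.zero_mem, h0⟩
      add_mem' := by
        intro c1 c2 h1 h2 H hH
        obtain ⟨x1, hx1, e1⟩ := h1 H hH
        have := hH
        have hK : (β x1).ker.FiniteIndex := AddSubgroup.finiteIndex_ker (β x1)
        have := hK
        obtain ⟨x2, hx2, e2⟩ := h2 (H ⊓ (β x1).ker) inferInstance
        refine ⟨x1 + x2, H.add_mem hx1 hx2.1, ?_⟩
        have h3 : β x1 x2 = 0 := hx2.2
        rw [hQ, e1, e2, h3, add_zero]
      neg_mem' := by
        intro c hc
        have : -c = c := neg_eq_of_add_eq_zero_left (hV c)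
        rw [this]
        exact hc }
  have hS : ∀ c, c ∈ S ↔ ∀ H : AddSubgroup G, H.FiniteIndex → ∃ x ∈ H, Q x = c := fun c => Iff.rfl
  have hex : ∀ c : V, ∃ H : AddSubgroup G, H.FiniteIndex ∧ (c ∉ S → ∀ x ∈ H, Q x ≠ c) := by
    intro c
    by_cases hc : c ∈ S
    · exact ⟨⊤, inferInstance, fun h => absurd hc h⟩
    · have h1 := hc
      rw [hS] at h1
      push Not at h1
      obtain ⟨H, hH, h2⟩ := h1
      exact ⟨H, hH, fun _ => h2⟩
  choose H hH1 hH2 using hex
  have hfi : (⨅ c, H c).FiniteIndex := AddSubgroup.finiteIndex_iInf hH1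
  have hQS : ∀ x ∈ ⨅ c, H c, Q x ∈ S := by
    intro x hx
    by_contra hc
    exact hH2 (Q x) hc x ((AddSubgroup.mem_iInf.1 hx) (Q x)) rfl
  have htop : S = ⊤ := by
    by_contra hne
    let _ : Module (ZMod 2) V := AddCommGroup.zmodModule (n := 2) (fun x => by
      rw [two_nsmul]; exact hV x)
    let S' : Submodule (ZMod 2) V := AddSubgroup.toZModSubmodule 2 S
    have hmem : ∀ x, x ∈ S' ↔ x ∈ S := fun x => Iff.rfl
    have hlt : S' < ⊤ := by
      rw [lt_top_iff_ne_top]
      intro h
      apply hne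
      rw [eq_top_iff]
      intro x _
      rw [← hmem, h]
      exact Submodule.mem_top
    obtain ⟨f, hf, hle⟩ := Submodule.exists_le_ker_of_lt_top S' hlt
    obtain ⟨x, hx, hne2⟩ := hχ f.toAddMonoidHom (by
      intro h
      apply hf
      apply LinearMap.ext
      intro v
      exact DFunLike.congr_fun h v) _ hfi
    exact hne2 (hle ((hmem _).2 (hQS x hx)))
  intro c K hK
  have hc : c ∈ S := by
    rw [htop]
    exact AddSubgroup.mem_top c
  exact (hS c).1 hc K hK

end Pool.Agent.H12.EC.QM
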